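import Pool.Agent.helper66.JS.Defs2

/-!
# Module G1: weak phase solutions are tight
-/

set_option autoImplicit false

namespace Pool.Agent.helper66.JS

open Finset

private theorem tight_mono {τ σ : ℕ → ℕ} {K : ℕ} (hm : ∀ k < K, τ k ≤ σ k ∧ σ k < τ (k + 1)) :
    ∀ i k, k + i ≤ K → τ k + i ≤ τ (k + i) := by
  intro i
  induction i with
  | zero => intro k _; simp
  | succ i ih =>
    intro k hk
    have h1 := ih k (by omega)
    have h2 := hm (k + i) (by omega)
    have h3 : k + (i + 1) = k + i + 1 := by ring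
    rw [h3]; omega

private theorem tight_exact {τ σ : ℕ → ℕ} {K : ℕ} (hm : ∀ k < K, τ k ≤ σ k ∧ σ k < τ (k + 1))
    (h : τ K ≤ τ 0 + K) : ∀ k ≤ K, τ k = τ 0 + k := by
  intro k hk
  have h1 := tight_mono hm k 0 (by omega)
  have h2 := tight_mono hm (K - k) k (by omega)
  have h3 : k + (K - k) = K := by omega
  rw [h3] at h2
  rw [Nat.zero_add] at h1
  omega

private theorem tight_con (w : WD) (E : ℕ) (τ σ : ℕ → ℕ)
    (hm : ∀ k < w.K, τ k ≤ σ k ∧ σ k < τ (k + 1)) (hE : τ w.K ≤ E) (hw : w.Ok)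
    (hk : w.Closed ∨ w.IsInit ∨ w.IsFin) :
    lb E w ≤ (∑ k ∈ w.A, (τ k : ℤ)) - ∑ k ∈ w.Z, (τ k : ℤ) ∧
      ((∑ k ∈ w.A, (τ k : ℤ)) - ∑ k ∈ w.Z, (τ k : ℤ) = lb E w →
        (∀ k ≤ w.K, τ k = τ 0 + k) ∧ (w.IsInit → τ 0 = 0) ∧ (w.IsFin → τ 0 + w.K = E)) := by
  have h0K := tight_mono hm w.K 0 (by omega)
  rw [Nat.zero_add] at h0K
  rcases hk with ⟨hc, h0, hK, hlt⟩ | ⟨hZ, hA, hu⟩ | ⟨hA, hZ, hu⟩
  · -- closed
    have hAne : w.A ≠ ∅ := by
      intro h; rw [h] at hK; simp at hK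
    have hZne : w.Z.Nonempty := ⟨0, h0⟩
    -- deviations
    obtain ⟨m, hmZ, hmax⟩ := Finset.exists_max_image w.Z (fun k => ((τ k : ℤ) - τ 0 - k)) hZne
    have hdev : ∀ x y, x ≤ y → y ≤ w.K → ((τ x : ℤ) - τ 0 - x) ≤ ((τ y : ℤ) - τ 0 - y) := by
      intro x y hxy hy
      have h1 := tight_mono hm (y - x) x (by omega)
      have h3 : x + (y - x) = y := by omega
      rw [h3] at h1
      omega
    have h1 : ∑ k ∈ w.A.erase w.K, ((τ m : ℤ) - τ 0 - m) ≤
        ∑ k ∈ w.A.erase w.K, ((τ k : ℤ) - τ 0 - k) := by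
      apply Finset.sum_le_sum
      intro k hk
      have hk' := Finset.mem_of_mem_erase hk
      exact hdev m k (hlt m hmZ k hk').le (hw.hA k hk')
    have h2 : ∑ k ∈ w.Z.erase 0, ((τ k : ℤ) - τ 0 - k) ≤
        ∑ k ∈ w.Z.erase 0, ((τ m : ℤ) - τ 0 - m) := by
      apply Finset.sum_le_sum
      intro k hk
      exact hmax k (Finset.mem_of_mem_erase hk)
    have hcard : (w.A.erase w.K).card = (w.Z.erase 0).card := by
      rw [Finset.card_erase_of_mem hK, Finset.card_erase_of_mem h0, hc]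
    rw [Finset.sum_const, nsmul_eq_mul] at h1 h2
    rw [hcard] at h1
    have h3 := Finset.add_sum_erase w.A (fun k => ((τ k : ℤ) - τ 0 - k)) hK
    have h4 := Finset.add_sum_erase w.Z (fun k => ((τ k : ℤ) - τ 0 - k)) h0
    have h5 : ∑ k ∈ w.A, ((τ k : ℤ) - τ 0 - k) =
        (∑ k ∈ w.A, (τ k : ℤ)) - w.A.card * (τ 0 : ℤ) - ∑ k ∈ w.A, (k : ℤ) := by
      rw [Finset.sum_sub_distrib, Finset.sum_sub_distrib, Finset.sum_const, nsmul_eq_mul]
    have h6 : ∑ k ∈ w.Z, ((τ k : ℤ) - τ 0 - k) =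
        (∑ k ∈ w.Z, (τ k : ℤ)) - w.Z.card * (τ 0 : ℤ) - ∑ k ∈ w.Z, (k : ℤ) := by
      rw [Finset.sum_sub_distrib, Finset.sum_sub_distrib, Finset.sum_const, nsmul_eq_mul]
    rw [hc] at h5
    have hlb : lb E w = (∑ k ∈ w.A, (k : ℤ)) - (∑ k ∈ w.Z, (k : ℤ)) := by
      unfold lb; rw [if_neg hAne]; ring
    have key : ((τ w.K : ℤ) - τ 0 - w.K) ≤
        ((∑ k ∈ w.A, (τ k : ℤ)) - ∑ k ∈ w.Z, (τ k : ℤ)) - lb E w := by
      rw [hlb]
      have h40 : ((τ 0 : ℤ) - τ 0 - (0 : ℕ)) = 0 := by simp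
      rw [h40] at h4
      linarith
    refine ⟨by omega, ?_⟩
    intro heq
    refine ⟨tight_exact hm (by omega), ?_, ?_⟩
    · intro hi
      rw [hi.1] at h0
      simp at h0
    · intro hf
      exact absurd hf.1 hAne
  · -- initial
    have hAne : w.A ≠ ∅ := by rw [hA]; simp
    have hlb : lb E w = w.K := by
      unfold lb; rw [if_neg hAne, hZ, hA]; simp
    rw [hlb, hZ, hA]
    simp only [Finset.sum_singleton, Finset.sum_empty, sub_zero]
    refine ⟨by omega, ?_⟩
    intro heq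
    refine ⟨tight_exact hm (by omega), ?_, ?_⟩
    · intro _; omega
    · intro hf
      exact absurd hf.1 hAne
  · -- final
    have hlb : lb E w = (w.K : ℤ) - E := by
      unfold lb; rw [if_pos hA, hZ, hA]; simp
    rw [hlb, hZ, hA]
    simp only [Finset.sum_singleton, Finset.sum_empty, zero_sub]
    refine ⟨by omega, ?_⟩
    intro heq
    refine ⟨tight_exact hm (by omega), ?_, ?_⟩
    · intro hi
      rw [hi.1] at hZ
      exact absurd hZ (Finset.singleton_ne_empty 0).symm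
    · intro _; omega

private theorem tight_fiber (A : Finset ℕ) (τ : ℕ → ℕ) (E : ℕ) (h : ∀ k ∈ A, τ k ≤ E) :
    ∑ k ∈ A, (τ k : ℤ) = ∑ t ∈ Finset.range (E + 1), (t : ℤ) * ((A.filter (fun k => τ k = t)).card : ℤ) := by
  rw [← Finset.sum_fiberwise_of_maps_to (s := A) (t := Finset.range (E + 1)) (g := τ)
    (fun k hk => Finset.mem_range.2 (by have := h k hk; omega))]
  apply Finset.sum_congr rfl
  intro t _
  rw [Finset.sum_congr rfl (g := fun _ => (t : ℤ))]
  · rw [Finset.sum_const, nsmul_eq_mul, mul_comm]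
  · intro k hk
    rw [(Finset.mem_filter.1 hk).2]

private theorem tight_cnt (n : ℕ) (f : Fin n → WD) (s : Fin n → ℕ) (g : WD → Finset ℕ) (t : ℕ) :
    cntAt (List.ofFn (fun j => (f j, s j))) g t =
      ∑ j : Fin n, if s j ≤ t ∧ t - s j ∈ g (f j) then 1 else 0 := by
  unfold cntAt
  induction n with
  | zero => simp
  | succ n ih =>
    rw [List.ofFn_succ, List.countP_cons, Fin.sum_univ_succ,
      ih (fun j => f j.succ) (fun j => s j.succ), add_comm]
    congr 1
    simp only [decide_eq_true_eq]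

theorem tight (W : List WD) (E : ℕ) (τ σ : Fin W.length → ℕ → ℕ) (h : WPS W E τ σ)
    (hW : ∀ w ∈ W, w.Ok) (hk : ∀ w ∈ W, w.Closed ∨ w.IsInit ∨ w.IsFin)
    (hs : (W.map (lb E)).sum = 0) :
    ∃ S : List (WD × ℕ), S.map Prod.fst = W ∧
      (∀ p ∈ S, p.2 + p.1.K ≤ E ∧ (p.1.IsInit → p.2 = 0) ∧ (p.1.IsFin → p.2 + p.1.K = E)) ∧
      (∀ t, cntAt S WD.A t = cntAt S WD.Z t) ∧
      (∀ p ∈ S, ∀ u d, p.1.ud = some (u, d) → ∀ t, p.2 + u < t → t ≤ p.2 + d →
        cntAt S WD.A t = 0) := by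
  have hok : ∀ j, (W.get j).Ok := fun j => hW _ (List.get_mem _ _)
  have hle : ∀ j, ∀ k ≤ (W.get j).K, τ j k ≤ E := by
    intro j k hk
    have h1 := tight_mono (h.mono j) ((W.get j).K - k) k (by omega)
    have h3 : k + ((W.get j).K - k) = (W.get j).K := by omega
    rw [h3] at h1
    have := h.bd j
    omega
  have hcon := fun j => tight_con (W.get j) E (τ j) (σ j) (h.mono j) (h.bd j) (hok j)
    (hk _ (List.get_mem _ _))
  have hsumA : ∑ j, ((∑ k ∈ (W.get j).A, (τ j k : ℤ)) - ∑ k ∈ (W.get j).Z, (τ j k : ℤ)) = 0 := by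
    rw [Finset.sum_sub_distrib, sub_eq_zero]
    have e1 : ∀ j, ∑ k ∈ (W.get j).A, (τ j k : ℤ) = ∑ t ∈ Finset.range (E + 1),
        (t : ℤ) * (((W.get j).A.filter (fun k => τ j k = t)).card : ℤ) := fun j =>
      tight_fiber _ _ _ (fun k hk => hle j k ((hok j).hA k hk))
    have e2 : ∀ j, ∑ k ∈ (W.get j).Z, (τ j k : ℤ) = ∑ t ∈ Finset.range (E + 1),
        (t : ℤ) * (((W.get j).Z.filter (fun k => τ j k = t)).card : ℤ) := fun j =>
      tight_fiber _ _ _ (fun k hk => hle j k ((hok j).hZ k hk))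
    rw [Finset.sum_congr rfl (fun j _ => e1 j), Finset.sum_congr rfl (fun j _ => e2 j),
      Finset.sum_comm, Finset.sum_comm (s := Finset.univ)]
    apply Finset.sum_congr rfl
    intro t _
    rw [← Finset.mul_sum, ← Finset.mul_sum]
    have := h.bal t
    congr 1
    exact_mod_cast this
  have hlbs : ∑ j, lb E (W.get j) = 0 := by
    rw [← hs, ← List.sum_ofFn]
    congr 1
    conv_rhs => rw [← List.ofFn_get W]
    rw [List.map_ofFn]
    rfl
  have hz : ∑ j, (((∑ k ∈ (W.get j).A, (τ j k : ℤ)) - ∑ k ∈ (W.get j).Z, (τ j k : ℤ)) -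
      lb E (W.get j)) = 0 := by
    rw [Finset.sum_sub_distrib, hsumA, hlbs, sub_zero]
  have hz' := (Finset.sum_eq_zero_iff_of_nonneg (fun j _ => by
    have := (hcon j).1; linarith)).1 hz
  have hex := fun j => (hcon j).2 (by
    have := hz' j (Finset.mem_univ j); linarith)
  -- counting
  have hcnt : ∀ (g : WD → Finset ℕ), (∀ j, ∀ k ∈ g (W.get j), k ≤ (W.get j).K) → ∀ t,
      cntAt (List.ofFn (fun j => (W.get j, τ j 0))) g t =
        ∑ j, ((g (W.get j)).filter (fun k => τ j k = t)).card := by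
    intro g hg t
    rw [tight_cnt]
    apply Finset.sum_congr rfl
    intro j _
    have hset : (g (W.get j)).filter (fun k => τ j k = t) =
        if τ j 0 ≤ t ∧ t - τ j 0 ∈ g (W.get j) then {t - τ j 0} else ∅ := by
      ext k
      rw [Finset.mem_filter]
      constructor
      · rintro ⟨h1, h2⟩
        rw [(hex j).1 k (hg j k h1)] at h2
        have h3 : t - τ j 0 = k := by omega
        rw [if_pos ⟨by omega, by rw [h3]; exact h1⟩, h3]
        simp
      · intro h1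
        split_ifs at h1 with h2
        · rw [Finset.mem_singleton] at h1
          subst h1
          refine ⟨h2.2, ?_⟩
          rw [(hex j).1 _ (hg j _ h2.2)]
          omega
        · simp at h1
    rw [hset]
    split_ifs <;> simp
  have hA := hcnt WD.A (fun j k hk => (hok j).hA k hk)
  have hZ := hcnt WD.Z (fun j k hk => (hok j).hZ k hk)
  refine ⟨List.ofFn (fun j => (W.get j, τ j 0)), ?_, ?_, ?_, ?_⟩
  · rw [List.map_ofFn]
    exact List.ofFn_get W
  · intro p hp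
    rw [List.mem_ofFn] at hp
    obtain ⟨j, rfl⟩ := hp
    refine ⟨?_, (hex j).2.1, (hex j).2.2⟩
    have h1 := (hex j).1 _ le_rfl
    have h2 := h.bd j
    simp only
    omega
  · intro t
    rw [hA, hZ]
    exact h.bal t
  · intro p hp u d hud t h1 h2
    rw [List.mem_ofFn] at hp
    obtain ⟨j, rfl⟩ := hp
    simp only at h1 h2 hud
    rw [hA]
    apply Finset.sum_eq_zero
    intro j' _
    rw [Finset.card_eq_zero, Finset.filter_eq_empty_iff]
    intro k hk hkt
    have hud' := (hok j).hud u d hud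
    refine h.blk j u d hud t ?_ ?_ j' k (Finset.mem_union_left _ hk) hkt
    · have h3 := h.mono j u (by omega)
      have h4 := (hex j).1 u (by omega)
      have h5 := (hex j).1 (u + 1) (by omega)
      omega
    · have h3 := h.mono j d (by omega)
      have h4 := (hex j).1 d (by omega)
      omega

end Pool.Agent.helper66.JS
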