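import Pool.Agent.helper66.JS.Defs2

/-!
# Module G2: words of a net: kinds and minimal contributions
-/

set_option autoImplicit false

namespace Pool.Agent.helper66.JS

open Finset

private theorem g2_sum {α M : Type} [AddCommMonoid M] (g : α → M) (m : ℕ) (f : ℕ → List α) :
    (((List.range m).flatMap f).map g).sum = ∑ i ∈ Finset.range m, ((f i).map g).sum := by
  induction m with
  | zero => simp
  | succ m ih =>
    rw [List.range_succ, List.flatMap_append, List.map_append, List.sum_append, ih,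
      Finset.sum_range_succ]
    simp

private theorem g2_rep {α M : Type} [AddCommMonoid M] (g : α → M) (k : ℕ) (x : α) :
    ((List.replicate k x).map g).sum = k • g x := by
  rw [List.map_replicate, List.sum_replicate]

private theorem g2_P (n : Net) (hn : n.Ok) : n.zl ≤ n.P := by
  unfold Net.P
  exact Nat.le_mul_of_pos_left _ hn.Zn

private theorem g2_tw (n : Net) (hn : n.Ok) : n.tw.Ok ∧ n.tw.Closed := by
  have h := g2_P n hn
  unfold Net.zl at h
  refine ⟨⟨?_, ?_, ?_, ?_⟩, rfl, ?_, ?_, ?_⟩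
  · intro k hk
    simp only [Net.tw, Finset.mem_singleton] at hk ⊢
    omega
  · intro k hk
    simp only [Net.tw, Finset.mem_singleton] at hk ⊢
    omega
  · simp only [Net.tw, Finset.disjoint_singleton_left, Finset.mem_singleton]
    omega
  · intro u d h
    simp [Net.tw] at h
  · simp [Net.tw]
  · simp [Net.tw]
  · intro x hx y hy
    simp only [Net.tw, Finset.mem_singleton] at hx hy
    omega

private theorem g2_rwA (n : Net) (hn : n.Ok) (R : Rule) (h1 : R.o0 < R.o1) (h2 : R.o1 < R.o2)
    (h3 : R.o2 < n.a) {M : Type} [AddCommMonoid M] (f : ℕ → M) :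
    ∑ k ∈ (n.rw R).A, f k = f (n.P + th R.o0) + (f (n.P + th R.o1) + (f (n.P + th R.o2) +
      (f (2 * n.P) + f (2 * n.P + 1)))) := by
  have h := g2_P n hn
  unfold Net.zl at h
  unfold Net.rw th
  simp only
  rw [Finset.sum_insert, Finset.sum_insert, Finset.sum_insert, Finset.sum_insert,
    Finset.sum_singleton]
  all_goals (simp only [Finset.mem_insert, Finset.mem_singleton]; omega)

private theorem g2_rwZ (n : Net) (R : Rule) (h1 : R.i0 < R.i1) (h2 : R.i1 < R.i2)
    {M : Type} [AddCommMonoid M] (f : ℕ → M) :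
    ∑ k ∈ (n.rw R).Z, f k = f 0 + (f 1 + (f (th R.i0) + (f (th R.i1) + f (th R.i2)))) := by
  unfold Net.rw th
  simp only
  rw [Finset.sum_insert, Finset.sum_insert, Finset.sum_insert, Finset.sum_insert,
    Finset.sum_singleton]
  all_goals (simp only [Finset.mem_insert, Finset.mem_singleton]; omega)

private theorem g2_rwAc (n : Net) (hn : n.Ok) (R : Rule) (h1 : R.o0 < R.o1) (h2 : R.o1 < R.o2)
    (h3 : R.o2 < n.a) : (n.rw R).A.card = 5 := by
  rw [Finset.card_eq_sum_ones, g2_rwA n hn R h1 h2 h3]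
  rfl

private theorem g2_rwZc (n : Net) (R : Rule) (h1 : R.i0 < R.i1) (h2 : R.i1 < R.i2) :
    (n.rw R).Z.card = 5 := by
  rw [Finset.card_eq_sum_ones, g2_rwZ n R h1 h2]
  rfl

private theorem g2_rw (n : Net) (hn : n.Ok) (i : ℕ) (hi : i < n.r) :
    (n.rw (n.rule i)).Ok ∧ (n.rw (n.rule i)).Closed := by
  have h := g2_P n hn
  unfold Net.zl at h
  obtain ⟨i1, i2, i3⟩ := hn.rI i hi
  obtain ⟨o1, o2, o3⟩ := hn.rO i hi
  have hl := hn.rl i hi
  have hA : ∀ k ∈ (n.rw (n.rule i)).A, n.P + 3 ≤ k ∧ k ≤ 2 * n.P + 1 := by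
    intro k hk
    unfold Net.rw th at hk
    simp only [Finset.mem_insert, Finset.mem_singleton] at hk
    omega
  have hZ : ∀ k ∈ (n.rw (n.rule i)).Z, k ≤ n.P := by
    intro k hk
    unfold Net.rw th at hk
    simp only [Finset.mem_insert, Finset.mem_singleton] at hk
    omega
  have hK : (n.rw (n.rule i)).K = 2 * n.P + 1 := rfl
  refine ⟨⟨?_, ?_, ?_, ?_⟩, ?_, ?_, ?_, ?_⟩
  · intro k hk
    rw [hK]
    exact (hA k hk).2
  · intro k hk
    rw [hK]
    have := hZ k hk
    omega
  · rw [Finset.disjoint_left]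
    intro k h1 h2
    have := (hA k h1).1
    have := hZ k h2
    omega
  · intro u d h
    unfold Net.rw at h
    simp only [Option.some.injEq, Prod.mk.injEq] at h
    rw [hK]
    unfold th at h
    omega
  · rw [g2_rwAc n hn _ o1 o2 o3, g2_rwZc n _ i1 i2]
  · unfold Net.rw
    simp
  · unfold Net.rw
    simp
  · intro x hx y hy
    have := hZ x hx
    have := (hA y hy).1
    omega

private theorem g2_iw (ρ : ℕ) : (Net.iw ρ).Ok ∧ (Net.iw ρ).IsInit := by
  refine ⟨⟨?_, ?_, ?_, ?_⟩, rfl, rfl, rfl⟩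
  · intro k hk
    simp only [Net.iw, Finset.mem_singleton] at hk ⊢
    omega
  · intro k hk
    simp [Net.iw] at hk
  · simp [Net.iw]
  · intro u d h
    simp [Net.iw] at h

private theorem g2_fw (ρ : ℕ) : (Net.fw ρ).Ok ∧ (Net.fw ρ).IsFin := by
  refine ⟨⟨?_, ?_, ?_, ?_⟩, rfl, rfl, rfl⟩
  · intro k hk
    simp [Net.fw] at hk
  · intro k hk
    simp only [Net.fw, Finset.mem_singleton] at hk ⊢
    omega
  · simp [Net.fw]
  · intro u d h
    simp [Net.fw] at h

private theorem g2_lb_tw (n : Net) (E : ℕ) : lb E n.tw = n.P := by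
  unfold lb Net.tw
  simp

private theorem g2_lb_rw (n : Net) (hn : n.Ok) (E i : ℕ) (hi : i < n.r) :
    lb E (n.rw (n.rule i)) = 7 * n.P + 2 * (((n.rule i).o0 + (n.rule i).o1 + (n.rule i).o2 : ℤ) -
      ((n.rule i).i0 + (n.rule i).i1 + (n.rule i).i2)) := by
  obtain ⟨i1, i2, i3⟩ := hn.rI i hi
  obtain ⟨o1, o2, o3⟩ := hn.rO i hi
  unfold lb
  rw [g2_rwA n hn _ o1 o2 o3, g2_rwZ n _ i1 i2, if_neg]
  · unfold th
    push_cast
    ring
  · intro h
    have := g2_rwAc n hn _ o1 o2 o3
    rw [h] at this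
    simp at this

private theorem g2_lb_iw (E ρ : ℕ) : lb E (Net.iw ρ) = ρ := by
  unfold lb Net.iw
  simp

private theorem g2_lb_fw (E k : ℕ) : lb E (Net.fw k) = (k : ℤ) - E := by
  unfold lb Net.fw
  simp

theorem net_words_ok (n : Net) (hn : n.Ok) :
    (∀ w ∈ n.W, w.Ok ∧ (w.Closed ∨ w.IsInit ∨ w.IsFin)) ∧ (n.W.map (lb n.E)).sum = 0 ∧
      (n.W.map (fun w => w.A.card)).sum = (n.W.map (fun w => w.Z.card)).sum := by
  have hEP : n.E + 1 = n.Cyc * n.P + n.P := by
    have hP : 0 < n.P := by
      have := g2_P n hn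
      unfold Net.zl at this
      omega
    have : n.Cyc * n.P + n.P = (n.Cyc + 1) * n.P := by ring
    rw [this]
    unfold Net.E
    have : 0 < (n.Cyc + 1) * n.P := Nat.mul_pos (by omega) hP
    omega
  refine ⟨?_, ?_, ?_⟩
  · intro w hw
    unfold Net.W at hw
    rw [List.mem_append, List.mem_append, List.mem_append] at hw
    rcases hw with ((hw | hw) | hw) | hw
    · rw [List.eq_of_mem_replicate hw]
      exact ⟨(g2_tw n hn).1, Or.inl (g2_tw n hn).2⟩
    · unfold Net.WR at hw
      rw [List.mem_flatMap] at hw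
      obtain ⟨i, hi, hw⟩ := hw
      rw [List.eq_of_mem_replicate hw]
      have := g2_rw n hn i (List.mem_range.1 hi)
      exact ⟨this.1, Or.inl this.2⟩
    · have : ∃ ρ, w = Net.iw ρ := by
        unfold Net.WI at hw
        rw [List.mem_flatMap] at hw
        obtain ⟨z, _, hw⟩ := hw
        rw [List.mem_cons, List.mem_cons, List.mem_flatMap] at hw
        rcases hw with hw | hw | ⟨s, _, hw⟩
        · exact ⟨_, hw⟩
        · exact ⟨_, hw⟩
        · exact ⟨_, List.eq_of_mem_replicate hw⟩
      obtain ⟨ρ, rfl⟩ := this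
      exact ⟨(g2_iw ρ).1, Or.inr (Or.inl (g2_iw ρ).2)⟩
    · have : ∃ ρ, w = Net.fw ρ := by
        unfold Net.WF at hw
        rw [List.mem_flatMap] at hw
        obtain ⟨z, _, hw⟩ := hw
        rw [List.mem_cons, List.mem_cons, List.mem_flatMap] at hw
        rcases hw with hw | hw | ⟨s, _, hw⟩
        · exact ⟨_, hw⟩
        · exact ⟨_, hw⟩
        · exact ⟨_, List.eq_of_mem_replicate hw⟩
      obtain ⟨ρ, rfl⟩ := this
      exact ⟨(g2_fw ρ).1, Or.inr (Or.inr (g2_fw ρ).2)⟩
  · unfold Net.W
    rw [List.map_append, List.map_append, List.map_append, List.sum_append, List.sum_append,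
      List.sum_append]
    have sT : (n.WT.map (lb n.E)).sum = (n.NT : ℤ) * n.P := by
      unfold Net.WT
      rw [g2_rep, g2_lb_tw, nsmul_eq_mul]
    have sR : (n.WR.map (lb n.E)).sum = ∑ i ∈ Finset.range n.r, (n.mult i : ℤ) * (7 * n.P +
        2 * (((n.rule i).o0 + (n.rule i).o1 + (n.rule i).o2 : ℤ) -
          ((n.rule i).i0 + (n.rule i).i1 + (n.rule i).i2))) := by
      unfold Net.WR
      rw [g2_sum]
      apply Finset.sum_congr rfl
      intro i hi
      rw [g2_rep, g2_lb_rw n hn _ i (Finset.mem_range.1 hi), nsmul_eq_mul]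
    have sI : (n.WI.map (lb n.E)).sum = ∑ z ∈ Finset.range n.Zn, ((2 * (z * n.zl : ℤ) + 1) +
        ∑ s ∈ Finset.range n.a, (n.c0 z s : ℤ) * ((z * n.zl : ℤ) + (3 + 2 * s))) := by
      unfold Net.WI
      rw [g2_sum]
      apply Finset.sum_congr rfl
      intro z _
      rw [List.map_cons, List.map_cons, List.sum_cons, List.sum_cons, g2_sum, g2_lb_iw, g2_lb_iw]
      have : ∀ s ∈ Finset.range n.a, ((List.replicate (n.c0 z s)
          (Net.iw (z * n.zl + th s))).map (lb n.E)).sum =
          (n.c0 z s : ℤ) * ((z * n.zl : ℤ) + (3 + 2 * s)) := by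
        intro s _
        rw [g2_rep, g2_lb_iw, nsmul_eq_mul]
        unfold th
        push_cast
        ring
      rw [Finset.sum_congr rfl this]
      push_cast
      ring
    have sF : (n.WF.map (lb n.E)).sum = ∑ z ∈ Finset.range n.Zn,
        ((-(2 * (n.Cyc * n.P : ℤ)) - (2 * (z * n.zl : ℤ) + 1)) -
        ∑ s ∈ Finset.range n.a, (n.cf z s : ℤ) *
          ((n.Cyc * n.P : ℤ) + ((z * n.zl : ℤ) + (3 + 2 * s)))) := by
      unfold Net.WF
      rw [g2_sum]
      apply Finset.sum_congr rfl
      intro z hz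
      have hzP : z * n.zl + n.zl ≤ n.P := by
        unfold Net.P
        have : z + 1 ≤ n.Zn := Finset.mem_range.1 hz
        calc z * n.zl + n.zl = (z + 1) * n.zl := by ring
          _ ≤ n.Zn * n.zl := Nat.mul_le_mul_right _ this
      have hzl : n.zl = 2 * n.a + 4 := rfl
      have key : ∀ x, x + 1 ≤ n.P → lb n.E (Net.fw (n.P - 1 - x)) =
          -((n.Cyc * n.P : ℤ) + x) := by
        intro x hx
        rw [g2_lb_fw]
        have h5 : ((n.E + 1 : ℕ) : ℤ) = ((n.Cyc * n.P + n.P : ℕ) : ℤ) := by rw [hEP]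
        push_cast at h5
        have h6 : ((n.P - 1 - x : ℕ) : ℤ) = (n.P : ℤ) - 1 - x := by omega
        rw [h6]
        linarith
      rw [List.map_cons, List.map_cons, List.sum_cons, List.sum_cons, g2_sum,
        key _ (by omega), key _ (by omega)]
      have : ∀ s ∈ Finset.range n.a, ((List.replicate (n.cf z s)
          (Net.fw (n.P - 1 - (z * n.zl + th s)))).map (lb n.E)).sum =
          -((n.cf z s : ℤ) * ((n.Cyc * n.P : ℤ) + ((z * n.zl : ℤ) + (3 + 2 * s)))) := by
        intro s hs
        have hs' := Finset.mem_range.1 hs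
        rw [g2_rep, key _ (by unfold th; omega), nsmul_eq_mul]
        unfold th
        push_cast
        ring
      rw [Finset.sum_congr rfl this, Finset.sum_neg_distrib]
      push_cast
      ring
    rw [sT, sR, sI, sF]
    have hNT : (n.NT : ℤ) = (∑ z ∈ Finset.range n.Zn, (n.tok z : ℤ)) * n.Cyc -
        7 * ∑ i ∈ Finset.range n.r, (n.mult i : ℤ) := by
      unfold Net.NT
      rw [Nat.cast_sub hn.many]
      push_cast
      ring
    have htok : ∀ z, (n.tok z : ℤ) = 2 + ∑ s ∈ Finset.range n.a, (n.c0 z s : ℤ) := by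
      intro z
      unfold Net.tok
      push_cast
      ring
    have hcons : ∀ z ∈ Finset.range n.Zn, ∑ s ∈ Finset.range n.a, (n.cf z s : ℤ) =
        ∑ s ∈ Finset.range n.a, (n.c0 z s : ℤ) := by
      intro z hz
      have := hn.cons z (Finset.mem_range.1 hz)
      exact_mod_cast this.symm
    have eR : ∑ i ∈ Finset.range n.r, (n.mult i : ℤ) * (7 * n.P +
        2 * (((n.rule i).o0 + (n.rule i).o1 + (n.rule i).o2 : ℤ) -
          ((n.rule i).i0 + (n.rule i).i1 + (n.rule i).i2))) =
        (7 * n.P) * ∑ i ∈ Finset.range n.r, (n.mult i : ℤ) +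
        2 * ∑ i ∈ Finset.range n.r, (n.mult i : ℤ) *
          (((n.rule i).o0 + (n.rule i).o1 + (n.rule i).o2 : ℤ) -
          ((n.rule i).i0 + (n.rule i).i1 + (n.rule i).i2)) := by
      rw [Finset.mul_sum, Finset.mul_sum, ← Finset.sum_add_distrib]
      apply Finset.sum_congr rfl
      intro i _
      ring
    have eIF : ∑ z ∈ Finset.range n.Zn, ((2 * (z * n.zl : ℤ) + 1) +
        ∑ s ∈ Finset.range n.a, (n.c0 z s : ℤ) * ((z * n.zl : ℤ) + (3 + 2 * s))) +
        ∑ z ∈ Finset.range n.Zn,
        ((-(2 * (n.Cyc * n.P : ℤ)) - (2 * (z * n.zl : ℤ) + 1)) -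
        ∑ s ∈ Finset.range n.a, (n.cf z s : ℤ) *
          ((n.Cyc * n.P : ℤ) + ((z * n.zl : ℤ) + (3 + 2 * s)))) =
        -((n.Cyc * n.P : ℤ)) * (∑ z ∈ Finset.range n.Zn, (n.tok z : ℤ)) +
        2 * ∑ z ∈ Finset.range n.Zn, ∑ s ∈ Finset.range n.a,
          ((n.c0 z s : ℤ) - n.cf z s) * s := by
      rw [← Finset.sum_add_distrib, Finset.mul_sum, Finset.mul_sum, ← Finset.sum_add_distrib]
      apply Finset.sum_congr rfl
      intro z hz
      rw [htok z]
      have e1 : ∑ s ∈ Finset.range n.a, (n.c0 z s : ℤ) * ((z * n.zl : ℤ) + (3 + 2 * s)) =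
          ((z * n.zl : ℤ) + 3) * ∑ s ∈ Finset.range n.a, (n.c0 z s : ℤ) +
          2 * ∑ s ∈ Finset.range n.a, (n.c0 z s : ℤ) * s := by
        rw [Finset.mul_sum, Finset.mul_sum, ← Finset.sum_add_distrib]
        apply Finset.sum_congr rfl
        intro s _
        ring
      have e2 : ∑ s ∈ Finset.range n.a, (n.cf z s : ℤ) *
          ((n.Cyc * n.P : ℤ) + ((z * n.zl : ℤ) + (3 + 2 * s))) =
          ((n.Cyc * n.P : ℤ) + (z * n.zl : ℤ) + 3) * ∑ s ∈ Finset.range n.a, (n.cf z s : ℤ) +
          2 * ∑ s ∈ Finset.range n.a, (n.cf z s : ℤ) * s := by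
        rw [Finset.mul_sum, Finset.mul_sum, ← Finset.sum_add_distrib]
        apply Finset.sum_congr rfl
        intro s _
        ring
      have e3 : ∑ s ∈ Finset.range n.a, ((n.c0 z s : ℤ) - n.cf z s) * s =
          ∑ s ∈ Finset.range n.a, (n.c0 z s : ℤ) * s -
          ∑ s ∈ Finset.range n.a, (n.cf z s : ℤ) * s := by
        rw [← Finset.sum_sub_distrib]
        apply Finset.sum_congr rfl
        intro s _
        ring
      rw [e1, e2, e3, hcons z hz]
      ring
    have hbal := hn.bal
    rw [eR, hNT]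
    linear_combination eIF + 2 * hbal
  · unfold Net.W
    rw [List.map_append, List.map_append, List.map_append, List.sum_append, List.sum_append,
      List.sum_append, List.map_append, List.map_append, List.map_append, List.sum_append,
      List.sum_append, List.sum_append]
    have sT : (n.WT.map (fun w => w.A.card)).sum = (n.WT.map (fun w => w.Z.card)).sum := by
      unfold Net.WT
      rw [g2_rep, g2_rep]
      rfl
    have sR : (n.WR.map (fun w => w.A.card)).sum = (n.WR.map (fun w => w.Z.card)).sum := by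
      unfold Net.WR
      rw [g2_sum, g2_sum]
      apply Finset.sum_congr rfl
      intro i hi
      rw [g2_rep, g2_rep]
      have := (g2_rw n hn i (Finset.mem_range.1 hi)).2.1
      rw [this]
    have sI : (n.WI.map (fun w => w.A.card)).sum = (n.WF.map (fun w => w.Z.card)).sum := by
      unfold Net.WI Net.WF
      rw [g2_sum, g2_sum]
      apply Finset.sum_congr rfl
      intro z hz
      rw [List.map_cons, List.map_cons, List.sum_cons, List.sum_cons, g2_sum,
        List.map_cons, List.map_cons, List.sum_cons, List.sum_cons, g2_sum]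
      have e1 : ∀ s ∈ Finset.range n.a, ((List.replicate (n.c0 z s)
          (Net.iw (z * n.zl + th s))).map (fun w => w.A.card)).sum = n.c0 z s := by
        intro s _
        rw [g2_rep]
        simp [Net.iw]
      have e2 : ∀ s ∈ Finset.range n.a, ((List.replicate (n.cf z s)
          (Net.fw (n.P - 1 - (z * n.zl + th s)))).map (fun w => w.Z.card)).sum = n.cf z s := by
        intro s _
        rw [g2_rep]
        simp [Net.fw]
      rw [Finset.sum_congr rfl e1, Finset.sum_congr rfl e2, hn.cons z (Finset.mem_range.1 hz)]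
      rfl
    have sI0 : (n.WI.map (fun w => w.Z.card)).sum = 0 := by
      unfold Net.WI
      rw [g2_sum]
      apply Finset.sum_eq_zero
      intro z _
      rw [List.map_cons, List.map_cons, List.sum_cons, List.sum_cons, g2_sum]
      have e1 : ∀ s ∈ Finset.range n.a, ((List.replicate (n.c0 z s)
          (Net.iw (z * n.zl + th s))).map (fun w => w.Z.card)).sum = 0 := by
        intro s _
        rw [g2_rep]
        simp [Net.iw]
      rw [Finset.sum_congr rfl e1]
      simp [Net.iw]
    have sF0 : (n.WF.map (fun w => w.A.card)).sum = 0 := by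
      unfold Net.WF
      rw [g2_sum]
      apply Finset.sum_eq_zero
      intro z _
      rw [List.map_cons, List.map_cons, List.sum_cons, List.sum_cons, g2_sum]
      have e1 : ∀ s ∈ Finset.range n.a, ((List.replicate (n.cf z s)
          (Net.fw (n.P - 1 - (z * n.zl + th s)))).map (fun w => w.A.card)).sum = 0 := by
        intro s _
        rw [g2_rep]
        simp [Net.fw]
      rw [Finset.sum_congr rfl e1]
      simp [Net.fw]
    rw [sT, sR, sI, sI0, sF0]
    ring

end Pool.Agent.helper66.JS
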