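import Pool.Agent.helper66.JS.Defs2

/-!
# Module G3: from lists to `TPS`
-/

set_option autoImplicit false

namespace Pool.Agent.helper66.JS

open Finset

private theorem g3_countP_flatMap {α : Type} (m : ℕ) (f : ℕ → List α) (p : α → Bool) :
    ((List.range m).flatMap f).countP p = ∑ i ∈ Finset.range m, (f i).countP p := by
  induction m with
  | zero => simp
  | succ m ih =>
    rw [List.range_succ, List.flatMap_append, List.countP_append, ih, Finset.sum_range_succ]
    simp

private theorem g3_snd {β : Type} (g : β → ℕ) (L : List (β × ℕ)) (h : ∀ p ∈ L, p.2 = g p.1) :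
    L = (L.map Prod.fst).map (fun w => (w, g w)) := by
  induction L with
  | nil => rfl
  | cons p L ih =>
    rw [List.map_cons, List.map_cons, ← ih (fun q hq => h q (List.mem_cons_of_mem _ hq)),
      ← h p List.mem_cons_self]

private theorem g3_fst {β : Type} (w : β) (L : List (β × ℕ)) (h : ∀ p ∈ L, p.1 = w) :
    L = (L.map Prod.snd).map (fun t => (w, t)) := by
  induction L with
  | nil => rfl
  | cons p L ih =>
    rw [List.map_cons, List.map_cons, ← ih (fun q hq => h q (List.mem_cons_of_mem _ hq)),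
      ← h p List.mem_cons_self]

private theorem g3_lift {β : Type} (g : ℕ → β) (R : List ℕ) : ∀ (L : List (β × ℕ)),
    L.map Prod.fst = R.map g →
    ∃ tR : List (ℕ × ℕ), tR.map Prod.fst = R ∧ L = tR.map (fun p => (g p.1, p.2)) := by
  induction R with
  | nil =>
    intro L h
    refine ⟨[], rfl, ?_⟩
    simpa using h
  | cons i R ih =>
    intro L h
    cases L with
    | nil => simp at h
    | cons p L =>
      rw [List.map_cons, List.map_cons, List.cons.injEq] at h
      obtain ⟨tR, h1, h2⟩ := ih L h.2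
      refine ⟨(i, p.2) :: tR, by rw [List.map_cons, h1], ?_⟩
      rw [List.map_cons, ← h2]
      congr 1
      rw [← h.1]

private theorem g3_rep {α : Type} (k : ℕ) (x : α) (p : α → Bool) :
    (List.replicate k x).countP p = if p x = true then k else 0 := by
  rw [List.countP_replicate]

private theorem cntAt_append (S T : List (WD × ℕ)) (f : WD → Finset ℕ) (t : ℕ) :
    cntAt (S ++ T) f t = cntAt S f t + cntAt T f t := by
  unfold cntAt; rw [List.countP_append]

theorem tps_of_list (n : Net) (hn : n.Ok) (S : List (WD × ℕ)) (h1 : S.map Prod.fst = n.W)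
    (h2 : ∀ p ∈ S, p.2 + p.1.K ≤ n.E ∧ (p.1.IsInit → p.2 = 0) ∧ (p.1.IsFin → p.2 + p.1.K = n.E))
    (h3 : ∀ t, cntAt S WD.A t = cntAt S WD.Z t)
    (h4 : ∀ p ∈ S, ∀ u d, p.1.ud = some (u, d) → ∀ t, p.2 + u < t → t ≤ p.2 + d →
        cntAt S WD.A t = 0) :
    ∃ tT tR, n.TPS tT tR := by
  unfold Net.W at h1
  rw [List.map_eq_append_iff] at h1
  obtain ⟨S3, SF, rfl, h1, hF⟩ := h1
  rw [List.map_eq_append_iff] at h1
  obtain ⟨S2, SI, rfl, h1, hI⟩ := h1
  rw [List.map_eq_append_iff] at h1
  obtain ⟨ST, SR, rfl, hT, hR⟩ := h1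
  -- words tw
  have hT' : ∀ p ∈ ST, p.1 = n.tw := by
    intro p hp
    have : p.1 ∈ ST.map Prod.fst := List.mem_map_of_mem hp
    rw [hT, Net.WT] at this
    exact List.eq_of_mem_replicate this
  have eT := g3_fst n.tw ST hT'
  -- rule words
  have hWR : n.WR = ((List.range n.r).flatMap (fun i => List.replicate (n.mult i) i)).map
      (fun i => n.rw (n.rule i)) := by
    unfold Net.WR
    rw [List.map_flatMap]
    simp only [List.map_replicate]
  rw [hWR] at hR
  obtain ⟨tR, hR1, eR⟩ := g3_lift _ _ SR hR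
  have hRr : ∀ p ∈ tR, p.1 < n.r := by
    intro p hp
    have : p.1 ∈ tR.map Prod.fst := List.mem_map_of_mem hp
    rw [hR1, List.mem_flatMap] at this
    obtain ⟨i, hi, hi'⟩ := this
    rw [List.eq_of_mem_replicate hi']
    exact List.mem_range.1 hi
  -- initial words
  have hWI : ∀ w ∈ n.WI, ∃ ρ, w = Net.iw ρ := by
    intro w hw
    unfold Net.WI at hw
    rw [List.mem_flatMap] at hw
    obtain ⟨z, _, hw⟩ := hw
    rw [List.mem_cons, List.mem_cons, List.mem_flatMap] at hw
    rcases hw with hw | hw | ⟨s, _, hw⟩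
    · exact ⟨_, hw⟩
    · exact ⟨_, hw⟩
    · exact ⟨_, List.eq_of_mem_replicate hw⟩
  have hWF : ∀ w ∈ n.WF, ∃ k, w = Net.fw k := by
    intro w hw
    unfold Net.WF at hw
    rw [List.mem_flatMap] at hw
    obtain ⟨z, _, hw⟩ := hw
    rw [List.mem_cons, List.mem_cons, List.mem_flatMap] at hw
    rcases hw with hw | hw | ⟨s, _, hw⟩
    · exact ⟨_, hw⟩
    · exact ⟨_, hw⟩
    · exact ⟨_, List.eq_of_mem_replicate hw⟩
  have hI0 : ∀ p ∈ SI, p.2 = 0 := by
    intro p hp
    have : p.1 ∈ SI.map Prod.fst := List.mem_map_of_mem hp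
    rw [hI] at this
    obtain ⟨ρ, hρ⟩ := hWI _ this
    refine (h2 p (by simp [hp])).2.1 ?_
    rw [hρ]
    exact ⟨rfl, rfl, rfl⟩
  have hF0 : ∀ p ∈ SF, p.2 = n.E - p.1.K := by
    intro p hp
    have : p.1 ∈ SF.map Prod.fst := List.mem_map_of_mem hp
    rw [hF] at this
    obtain ⟨k, hk⟩ := hWF _ this
    have h5 := (h2 p (by simp [hp])).2.2 (by rw [hk]; exact ⟨rfl, rfl, rfl⟩)
    omega
  have eI := g3_snd (fun _ => 0) SI hI0
  have eF := g3_snd (fun w => n.E - w.K) SF hF0
  rw [hI] at eI
  rw [hF] at eF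
  -- counts
  have cTA : ∀ t, cntAt ST WD.A t =
      (ST.map Prod.snd).countP (fun t0 => decide (t0 + n.P = t)) := by
    intro t
    conv_lhs => rw [eT]
    unfold cntAt
    rw [List.countP_map]
    congr 1
    funext t0
    simp only [Function.comp, Net.tw, Finset.mem_singleton]
    apply decide_eq_decide.2
    omega
  have cTZ : ∀ t, cntAt ST WD.Z t = (ST.map Prod.snd).count t := by
    intro t
    conv_lhs => rw [eT]
    unfold cntAt
    rw [List.countP_map, List.count]
    congr 1
    funext t0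
    simp only [Function.comp, Net.tw, Finset.mem_singleton]
    rw [Bool.eq_iff_iff]
    simp only [decide_eq_true_eq, beq_iff_eq]
    omega
  have cRA : ∀ t, cntAt SR WD.A t =
      tR.countP (fun p => decide (p.2 ≤ t ∧ t - p.2 ∈ (n.rw (n.rule p.1)).A)) := by
    intro t
    rw [eR]
    unfold cntAt
    rw [List.countP_map]
    rfl
  have cRZ : ∀ t, cntAt SR WD.Z t =
      tR.countP (fun p => decide (p.2 ≤ t ∧ t - p.2 ∈ (n.rw (n.rule p.1)).Z)) := by
    intro t
    rw [eR]
    unfold cntAt
    rw [List.countP_map]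
    rfl
  have cIA : ∀ t, cntAt SI WD.A t = n.Ic t := by
    intro t
    rw [eI]
    unfold cntAt Net.WI Net.Ic
    rw [List.countP_map, g3_countP_flatMap]
    apply Finset.sum_congr rfl
    intro z _
    rw [List.countP_cons, List.countP_cons, g3_countP_flatMap]
    have : ∀ s ∈ Finset.range n.a, (List.replicate (n.c0 z s) (Net.iw (z * n.zl + th s))).countP
        ((fun p : WD × ℕ => decide (p.2 ≤ t ∧ t - p.2 ∈ p.1.A)) ∘ fun w => (w, 0)) =
        if t = z * n.zl + th s then n.c0 z s else 0 := by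
      intro s _
      rw [g3_rep]
      simp [Net.iw]
    rw [Finset.sum_congr rfl this]
    simp only [Function.comp, Net.iw, Nat.zero_le, true_and, Nat.sub_zero, Finset.mem_singleton,
      decide_eq_true_eq]
    ring
  have cIZ : ∀ t, cntAt SI WD.Z t = 0 := by
    intro t
    unfold cntAt
    rw [List.countP_eq_zero]
    intro p hp
    have : p.1 ∈ SI.map Prod.fst := List.mem_map_of_mem hp
    rw [hI] at this
    obtain ⟨ρ, hρ⟩ := hWI _ this
    rw [hρ]
    simp [Net.iw]
  have cFA : ∀ t, cntAt SF WD.A t = 0 := by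
    intro t
    unfold cntAt
    rw [List.countP_eq_zero]
    intro p hp
    have : p.1 ∈ SF.map Prod.fst := List.mem_map_of_mem hp
    rw [hF] at this
    obtain ⟨ρ, hρ⟩ := hWF _ this
    rw [hρ]
    simp [Net.fw]
  have hEP : n.E + 1 = n.Cyc * n.P + n.P := by
    have hP : 0 < n.P := by
      unfold Net.P Net.zl
      exact Nat.mul_pos hn.Zn (by omega)
    have : n.Cyc * n.P + n.P = (n.Cyc + 1) * n.P := by ring
    rw [this]
    unfold Net.E
    have : 0 < (n.Cyc + 1) * n.P := Nat.mul_pos (by omega) hP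
    omega
  have cFZ : ∀ t, cntAt SF WD.Z t = n.Fc t := by
    intro t
    rw [eF]
    unfold cntAt Net.WF Net.Fc
    rw [List.countP_map, g3_countP_flatMap]
    apply Finset.sum_congr rfl
    intro z hz
    have hzP : z * n.zl + n.zl ≤ n.P := by
      unfold Net.P
      have : z + 1 ≤ n.Zn := Finset.mem_range.1 hz
      calc z * n.zl + n.zl = (z + 1) * n.zl := by ring
        _ ≤ n.Zn * n.zl := Nat.mul_le_mul_right _ this
    have hzl : n.zl = 2 * n.a + 4 := rfl
    rw [List.countP_cons, List.countP_cons, g3_countP_flatMap]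
    have : ∀ s ∈ Finset.range n.a,
        (List.replicate (n.cf z s) (Net.fw (n.P - 1 - (z * n.zl + th s)))).countP
        ((fun p : WD × ℕ => decide (p.2 ≤ t ∧ t - p.2 ∈ p.1.Z)) ∘ fun w => (w, n.E - w.K)) =
        if t = n.Cyc * n.P + z * n.zl + th s then n.cf z s else 0 := by
      intro s hs
      rw [g3_rep]
      have hs' := Finset.mem_range.1 hs
      simp only [Function.comp, Net.fw, Finset.mem_singleton, decide_eq_true_eq]
      congr 1
      apply propext
      unfold th
      generalize n.Cyc * n.P = CP at *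
      generalize z * n.zl = zz at *
      omega
    rw [Finset.sum_congr rfl this]
    simp only [Function.comp, Net.fw, Finset.mem_singleton, decide_eq_true_eq]
    have e1 : ((n.E - (n.P - 1 - z * n.zl) ≤ t ∧ t - (n.E - (n.P - 1 - z * n.zl)) = 0)) ↔
        t = n.Cyc * n.P + z * n.zl := by
      generalize n.Cyc * n.P = CP at *
      generalize z * n.zl = zz at *
      omega
    have e2 : ((n.E - (n.P - 1 - (z * n.zl + 1)) ≤ t ∧
        t - (n.E - (n.P - 1 - (z * n.zl + 1))) = 0)) ↔
        t = n.Cyc * n.P + z * n.zl + 1 := by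
      generalize n.Cyc * n.P = CP at *
      generalize z * n.zl = zz at *
      omega
    simp only [e1, e2]
    ring
  have hA : ∀ t, cntAt (ST ++ SR ++ SI ++ SF) WD.A t = n.cA (ST.map Prod.snd) tR t := by
    intro t
    rw [cntAt_append, cntAt_append, cntAt_append, cTA, cRA, cIA, cFA]
    unfold Net.cA
    ring
  have hZ : ∀ t, cntAt (ST ++ SR ++ SI ++ SF) WD.Z t = n.cZ (ST.map Prod.snd) tR t := by
    intro t
    rw [cntAt_append, cntAt_append, cntAt_append, cTZ, cRZ, cIZ, cFZ]
    unfold Net.cZ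
    ring
  have hmemR : ∀ p ∈ tR, (n.rw (n.rule p.1), p.2) ∈ ST ++ SR ++ SI ++ SF := by
    intro p hp
    have : (n.rw (n.rule p.1), p.2) ∈ SR := by
      rw [eR]
      exact List.mem_map.2 ⟨p, hp, rfl⟩
    simp [this]
  refine ⟨ST.map Prod.snd, tR, ?_, ?_, ?_, ?_⟩
  · intro t ht
    rw [List.mem_map] at ht
    obtain ⟨p, hp, rfl⟩ := ht
    have h5 := (h2 p (by simp [hp])).1
    rw [hT' p hp] at h5
    exact h5
  · intro p hp
    exact ⟨hRr p hp, (h2 _ (hmemR p hp)).1⟩
  · intro t
    rw [← hA, ← hZ]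
    exact h3 t
  · intro p hp
    rw [← hA]
    refine h4 _ (hmemR p hp) (th (n.rule p.1).l - 1) (th (n.rule p.1).l) rfl _ ?_ ?_
    · simp only
      unfold th
      omega
    · simp only
      exact le_rfl

end Pool.Agent.helper66.JS
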