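import Pool.Agent.helper66.JS.Defs2

/-!
# Module U1: runs of the net of a token machine give runs of the machine
-/

set_option autoImplicit false

namespace Pool.Agent.helper66.JS

private theorem u1_aux (T : Tok) (hT : T.Ok) (c0 : ℕ → ℕ) (N : ℕ) (m m' : ℕ → ℕ) (is : List ℕ)
    (hf : Fires (T.net c0 N).rule m is m') :
    (∀ i ∈ is, i < 2 * T.r + 1) → m' 0 = 0 → ∀ (p : ℕ) (C : ℕ → ℕ), p < T.ns → m 0 = 1 →
      m 1 = 0 → (∀ q < T.ns, m (2 + q) = if q = p then 1 else 0) →
      (∀ x < T.nc, m (2 + T.ns + x) = C x) → ∃ k C', T.Run k (p, C) (T.acc, C') := by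
  induction hf with
  | nil m =>
    intro _ h0 p C _ h1
    omega
  | cons m i is m' hEn hF ih =>
    intro hi h0 p C hp h1 h2 hst hct
    have hi' : i < 2 * T.r + 1 := hi i List.mem_cons_self
    obtain ⟨e0, e1, e2, e3⟩ := hEn
    by_cases hc : i = 2 * T.r
    · -- change of direction
      have hr : (T.net c0 N).rule i =
          ⟨0, 2 + T.acc, 2 + T.ns + T.e, 1, 2 + T.acc, 2 + T.ns + T.e, 2 + T.ns + T.f⟩ := by
        unfold Tok.net
        simp only
        rw [if_pos hc]
      rw [hr] at e1
      simp only at e1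
      rw [hst T.acc hT.acc] at e1
      split_ifs at e1 with h
      · exact ⟨0, C, by rw [h]; exact Tok.Run.refl _⟩
      · omega
    · by_cases hev : i % 2 = 0
      · have hj : i / 2 < T.r := by omega
        have hr : (T.net c0 N).rule i =
            ⟨0, 2 + T.rp (i / 2), 2 + T.ns + T.rx (i / 2), 0, 2 + T.rq (i / 2),
              2 + T.ns + T.ry (i / 2), 2 + T.ns + T.rl (i / 2)⟩ := by
          unfold Tok.net
          simp only
          rw [if_neg hc, if_pos hev]
        generalize i / 2 = j at *
        have hrp := hT.rp j hj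
        have hrq := hT.rq j hj
        have hrx := (hT.rx j hj).1
        have hry := (hT.ry j hj).1
        have hrl := (hT.rl j hj).1
        rw [hr] at e0 e1 e2 e3
        simp only at e0 e1 e2 e3
        rw [hst _ hrp] at e1
        have hpp : T.rp j = p := by
          by_contra h
          rw [if_neg h] at e1
          omega
        rw [hct _ hrx] at e2
        rw [hct _ hrl] at e3
        rw [hr] at ih
        have hfire : ∀ s, Rule.fire ⟨0, 2 + T.rp j, 2 + T.ns + T.rx j, 0, 2 + T.rq j,
              2 + T.ns + T.ry j, 2 + T.ns + T.rl j⟩ m s =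
            m s - (if s = 0 ∨ s = 2 + T.rp j ∨ s = 2 + T.ns + T.rx j then 1 else 0) +
              (if s = 0 ∨ s = 2 + T.rq j ∨ s = 2 + T.ns + T.ry j then 1 else 0) := by
          intro s
          rfl
        obtain ⟨k, C', hrun⟩ := ih (fun i hi'' => hi i (List.mem_cons_of_mem _ hi'')) h0
          (T.rq j) (fun s => C s - (if s = T.rx j then 1 else 0) +
            (if s = T.ry j then 1 else 0)) hrq
          (by rw [hfire, if_pos (Or.inl rfl), if_pos (Or.inl rfl)]; omega)
          (by
            rw [hfire, if_neg (by omega), if_neg (by omega)]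
            omega)
          (by
            intro q hq
            rw [hfire, hst q hq]
            have a1 : (2 + q = 0 ∨ 2 + q = 2 + T.rp j ∨ 2 + q = 2 + T.ns + T.rx j) ↔
                q = T.rp j := by omega
            have a2 : (2 + q = 0 ∨ 2 + q = 2 + T.rq j ∨ 2 + q = 2 + T.ns + T.ry j) ↔
                q = T.rq j := by omega
            simp only [a1, a2]
            rw [← hpp]
            split_ifs <;> omega)
          (by
            intro x hx
            rw [hfire, hct x hx]
            have a1 : (2 + T.ns + x = 0 ∨ 2 + T.ns + x = 2 + T.rp j ∨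
                2 + T.ns + x = 2 + T.ns + T.rx j) ↔ x = T.rx j := by omega
            have a2 : (2 + T.ns + x = 0 ∨ 2 + T.ns + x = 2 + T.rq j ∨
                2 + T.ns + x = 2 + T.ns + T.ry j) ↔ x = T.ry j := by omega
            simp only [a1, a2])
        refine ⟨k + 1, C', Tok.Run.step k j _ _ _ ?_ hrun⟩
        exact ⟨hj, hpp.symm, e2, e3, rfl, rfl⟩
      · exfalso
        have hr : ((T.net c0 N).rule i).i0 = 1 := by
          unfold Tok.net
          simp only
          rw [if_neg hc, if_neg hev]
        rw [hr] at e0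
        omega

theorem tok_no (T : Tok) (hT : T.Ok) (c0 : ℕ → ℕ) (N : ℕ) (is : List ℕ) (m' : ℕ → ℕ)
    (hi : ∀ i ∈ is, i < (T.net c0 N).r) (hf : Fires (T.net c0 N).rule ((T.net c0 N).c0 0) is m')
    (hm : ∀ s < (T.net c0 N).a, m' s = (T.net c0 N).cf 0 s) :
    ∃ k C, T.Run k (T.p0, c0) (T.acc, C) := by
  have ha : (T.net c0 N).a = 2 + T.ns + T.nc := rfl
  have hc0 : ∀ s, (T.net c0 N).c0 0 s = if s = 0 then 1 else if s = 1 then 0 else
      if s < 2 + T.ns then (if s = 2 + T.p0 then 1 else 0) else c0 (s - (2 + T.ns)) := by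
    intro s
    unfold Tok.net
    simp only [if_true]
  refine u1_aux T hT c0 N _ m' is hf hi ?_ T.p0 c0 hT.p0 ?_ ?_ ?_ ?_
  · rw [hm 0 (by rw [ha]; omega)]
    rfl
  · rfl
  · rfl
  · intro q hq
    rw [hc0, if_neg (by omega), if_neg (by omega), if_pos (by omega)]
    congr 1
    apply propext
    omega
  · intro x hx
    rw [hc0, if_neg (by omega), if_neg (by omega), if_neg (by omega)]
    congr 1
    omega

end Pool.Agent.helper66.JS
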